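import Mathlib

/-!
# The counting argument for the sharp upper bound in boxes
-/

set_option autoImplicit false

namespace Pool.Agent.H734.HE

open Set Filter Topology

/-- logarithmic kernel, smoothed at `0` -/
noncomputable def kr (R ρ s : ℝ) : ℝ := max 0 (Real.log (R / (s + ρ)))

theorem kr_nonneg (R ρ s : ℝ) : 0 ≤ kr R ρ s := le_max_left _ _

theorem kr_zero {R ρ s : ℝ} (hR : 0 < R) (hρ : 0 < ρ) (hs : R ≤ s) : kr R ρ s = 0 := by
  unfold kr
  refine max_eq_left (Real.log_nonpos ?_ ?_)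
  · have : 0 < s := hR.trans_le hs
    positivity
  · rw [div_le_one (by linarith)]
    linarith

theorem kr_low {R ρ u v : ℝ} (hR : 0 < R) (hρ : 0 < ρ) (hρR : ρ ≤ R / 2) (hu : |u| ≤ R)
    (hv : |v| ≤ R) : 1 / 2 ≤ kr (4 * R) ρ (Real.sqrt (u ^ 2 + v ^ 2)) := by
  have h2 : Real.sqrt (u ^ 2 + v ^ 2) ≤ 3 / 2 * R := by
    rw [Real.sqrt_le_left (by positivity)]
    have e1 : u ^ 2 ≤ R ^ 2 := sq_le_sq' (by linarith [(abs_le.1 hu).1]) (abs_le.1 hu).2
    have e2 : v ^ 2 ≤ R ^ 2 := sq_le_sq' (by linarith [(abs_le.1 hv).1]) (abs_le.1 hv).2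
    nlinarith [sq_nonneg R]
  have h3 := Real.sqrt_nonneg (u ^ 2 + v ^ 2)
  have h1 : 2 ≤ 4 * R / (Real.sqrt (u ^ 2 + v ^ 2) + ρ) := by
    rw [le_div_iff₀ (by positivity)]
    linarith
  calc (1 : ℝ) / 2 ≤ Real.log 2 := by linarith [Real.log_two_gt_d9]
    _ ≤ Real.log (4 * R / (Real.sqrt (u ^ 2 + v ^ 2) + ρ)) := Real.log_le_log (by norm_num) h1
    _ ≤ kr (4 * R) ρ (Real.sqrt (u ^ 2 + v ^ 2)) := le_max_right _ _

/-- The number of the grid points in an interval. -/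
theorem grid_card (N : ℕ) (σ : ℝ) (hσ : 0 < σ) (p q : ℝ) (hpq : p ≤ q) :
    (((Finset.range (N + 1)).filter fun i : ℕ => p ≤ σ * i ∧ σ * i ≤ q).card : ℝ) * σ ≤
      (q - p) + σ := by
  set I := (Finset.range (N + 1)).filter fun i : ℕ => p ≤ σ * i ∧ σ * i ≤ q with hI
  rcases I.eq_empty_or_nonempty with h | h
  · rw [h]
    simp
    linarith
  · have h1 : I ⊆ Finset.Icc (I.min' h) (I.max' h) := by
      intro i hi
      exact Finset.mem_Icc.2 ⟨I.min'_le i hi, I.le_max' i hi⟩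
    have h2 := Finset.card_le_card h1
    rw [Nat.card_Icc] at h2
    have h3 := (Finset.mem_filter.1 (I.min'_mem h)).2.1
    have h4 := (Finset.mem_filter.1 (I.max'_mem h)).2.2
    have h5 : I.min' h ≤ I.max' h := I.min'_le_max' h
    have h6 : (I.card : ℝ) ≤ (I.max' h : ℝ) + 1 - (I.min' h : ℝ) := by
      have : I.card + I.min' h ≤ I.max' h + 1 := by omega
      have h7 : ((I.card + I.min' h : ℕ) : ℝ) ≤ ((I.max' h + 1 : ℕ) : ℝ) := by exact_mod_cast this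
      push_cast at h7
      linarith
    have h7 := mul_le_mul_of_nonneg_right h6 hσ.le
    nlinarith

/-- The zeros near an end point. -/
theorem count_end (m : ℂ → ℝ) (hm : ∀ z, 0 ≤ m z) (x y : ℂ → ℝ) (S : Finset ℂ)
    (R ρ C1 W A x0 : ℝ) (hR : 0 < R) (hR1 : R ≤ 1 / 8) (hρ : 0 < ρ) (hρR : ρ ≤ R ^ 3)
    (hC1 : 0 < C1) (hW : 0 < W) (hA : 0 ≤ A) (hS : ∀ z ∈ S, |x z - x0| ≤ R ∧ |y z| ≤ W)
    (hP : ∀ l : ℤ, |R * l| ≤ W + 1 →
      ∑ z ∈ S, m z * kr (4 * R) ρ (Real.sqrt ((x z - x0) ^ 2 + (y z - R * l) ^ 2)) ≤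
        ((4 * R) ^ 2 / 8 + C1 * ρ) * A) :
    ∑ z ∈ S, m z ≤ 4 * (W + 1) * (2 + C1) * R * A := by
  have hρR1 : ρ ≤ R / 2 := by
    have : R ^ 3 ≤ R / 2 := by nlinarith [sq_nonneg R]
    linarith
  set I : Finset ℤ := Finset.Icc ⌊-W / R⌋ ⌊W / R⌋ with hI
  have hfl : ⌊-W / R⌋ ≤ ⌊W / R⌋ := Int.floor_mono (div_le_div_of_nonneg_right (by linarith) hR.le)
  have hIc : (I.card : ℝ) ≤ 2 * W / R + 2 := by
    rw [hI, Int.card_Icc]
    have e1 : (((⌊W / R⌋ + 1 - ⌊-W / R⌋).toNat : ℕ) : ℤ) = ⌊W / R⌋ + 1 - ⌊-W / R⌋ :=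
      Int.toNat_of_nonneg (by omega)
    have e2 : (((⌊W / R⌋ + 1 - ⌊-W / R⌋).toNat : ℕ) : ℝ) = (⌊W / R⌋ : ℝ) + 1 - (⌊-W / R⌋ : ℝ) := by
      have := congrArg (fun k : ℤ => (k : ℝ)) e1
      push_cast at this
      exact this
    rw [e2]
    have e3 := Int.floor_le (W / R)
    have e4 := Int.lt_floor_add_one (-W / R)
    have e5 : -W / R = -(W / R) := neg_div _ _
    have e6 : 2 * W / R = W / R + W / R := by ring
    linarith
  have h1 : ∀ z ∈ S, (1 : ℝ) / 2 ≤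
      ∑ l ∈ I, kr (4 * R) ρ (Real.sqrt ((x z - x0) ^ 2 + (y z - R * l) ^ 2)) := by
    intro z hz
    obtain ⟨g1, g2⟩ := hS z hz
    rw [abs_le] at g2
    have hl : ⌊y z / R⌋ ∈ I := by
      rw [hI, Finset.mem_Icc]
      constructor
      · exact Int.floor_mono (div_le_div_of_nonneg_right g2.1 hR.le)
      · exact Int.floor_mono (div_le_div_of_nonneg_right g2.2 hR.le)
    have e3 := Int.floor_le (y z / R)
    have e4 := Int.lt_floor_add_one (y z / R)
    rw [le_div_iff₀ hR] at e3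
    rw [div_lt_iff₀ hR] at e4
    have e5 : |y z - R * (⌊y z / R⌋ : ℝ)| ≤ R := by
      rw [abs_le]
      constructor
      · linarith
      · linarith
    exact (kr_low hR hρ hρR1 g1 e5).trans
      (Finset.single_le_sum (f := fun l : ℤ =>
        kr (4 * R) ρ (Real.sqrt ((x z - x0) ^ 2 + (y z - R * l) ^ 2)))
        (fun l _ => kr_nonneg _ _ _) hl)
  have h2 : (∑ z ∈ S, m z) * (1 / 2) ≤ I.card * (((4 * R) ^ 2 / 8 + C1 * ρ) * A) := by
    calc (∑ z ∈ S, m z) * (1 / 2) = ∑ z ∈ S, m z * (1 / 2) := by rw [Finset.sum_mul]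
      _ ≤ ∑ z ∈ S, m z * ∑ l ∈ I, kr (4 * R) ρ (Real.sqrt ((x z - x0) ^ 2 + (y z - R * l) ^ 2)) :=
          Finset.sum_le_sum fun z hz => mul_le_mul_of_nonneg_left (h1 z hz) (hm z)
      _ = ∑ l ∈ I, ∑ z ∈ S, m z * kr (4 * R) ρ (Real.sqrt ((x z - x0) ^ 2 + (y z - R * l) ^ 2)) := by
          rw [Finset.sum_comm]
          refine Finset.sum_congr rfl fun z _ => ?_
          rw [Finset.mul_sum]
      _ ≤ ∑ _l ∈ I, ((4 * R) ^ 2 / 8 + C1 * ρ) * A := by
          refine Finset.sum_le_sum fun l hl => hP l ?_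
          rw [hI, Finset.mem_Icc] at hl
          have k1 : (⌊-W / R⌋ : ℝ) ≤ l := by exact_mod_cast hl.1
          have k2 : (l : ℝ) ≤ ⌊W / R⌋ := by exact_mod_cast hl.2
          have e3 := Int.floor_le (W / R)
          have e4 := Int.lt_floor_add_one (-W / R)
          have e5 : (l : ℝ) ≤ W / R := k2.trans e3
          have e6 : -W / R < l + 1 := by linarith
          rw [le_div_iff₀ hR] at e5
          rw [div_lt_iff₀ hR] at e6
          rw [abs_le]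
          constructor
          · linarith
          · linarith
      _ = I.card * (((4 * R) ^ 2 / 8 + C1 * ρ) * A) := by rw [Finset.sum_const, nsmul_eq_mul]
  have h3 : ((4 * R) ^ 2 / 8 + C1 * ρ) * A ≤ ((2 + C1) * R ^ 2) * A := by
    refine mul_le_mul_of_nonneg_right ?_ hA
    have : ρ ≤ R ^ 2 := by nlinarith [sq_nonneg R]
    nlinarith
  have h4 : (I.card : ℝ) * (((4 * R) ^ 2 / 8 + C1 * ρ) * A) ≤
      (2 * W / R + 2) * (((2 + C1) * R ^ 2) * A) := by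
    refine mul_le_mul hIc h3 (by positivity) (by positivity)
  have h5 : (2 * W / R + 2) * (((2 + C1) * R ^ 2) * A) = 2 * (W + R) * ((2 + C1) * R * A) := by
    field_simp
  have h6 : 2 * (W + R) * ((2 + C1) * R * A) ≤ 2 * (W + 1) * ((2 + C1) * R * A) := by
    refine mul_le_mul_of_nonneg_right (by linarith) (by positivity)
  linarith

/-- The zeros in the middle. -/
theorem count_mid (m : ℂ → ℝ) (hm : ∀ z, 0 ≤ m z) (x y : ℂ → ℝ) (S : Finset ℂ)
    (R ρ σ C1 C2 W A a b : ℝ) (N : ℕ) (hσ0 : 0 < σ) (hσN : σ * N = 1) (hσR : σ ≤ R ^ 3)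
    (hR : 0 < R) (hR1 : R ≤ 1 / 8) (hρ : 0 < ρ) (hρR : ρ ≤ R ^ 3) (hC1 : 0 < C1) (hC2 : 0 < C2)
    (hab : a ≤ b) (hW : 0 < W) (hA : 0 ≤ A)
    (hS : ∀ z ∈ S, R ≤ x z ∧ x z + R ≤ 1 ∧ a - R ≤ x z ∧ x z ≤ b + R ∧ |y z| ≤ W)
    (hP : ∀ i j : ℤ, 0 ≤ σ * i → σ * i ≤ 1 → |σ * j| ≤ W + 1 →
      ∑ z ∈ S, m z * kr R ρ (Real.sqrt ((x z - σ * i) ^ 2 + (y z - σ * j) ^ 2)) ≤
        (R ^ 2 / 8 + C1 * ρ) * A)
    (hK : ∀ (u v : ℝ) (M : ℕ), R ≤ u → u + R ≤ 1 → |v| + R ≤ σ * M →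
      (Real.pi / 2 * R ^ 2 - C2 * (R * (ρ + σ))) / σ ^ 2 ≤
        ∑ i ∈ Finset.range (N + 1), ∑ j ∈ Finset.Icc (-(M : ℤ)) M,
          kr R ρ (Real.sqrt ((u - σ * i) ^ 2 + (v - σ * j) ^ 2))) :
    (∑ z ∈ S, m z) * (Real.pi / 2 - 2 * C2 * R ^ 2) ≤
      (b - a + 5 * R) * (2 * W + 5 * R) * (1 / 8 + C1 * R) * A := by
  have hR3 : R ^ 3 ≤ R := by nlinarith [sq_nonneg R]
  have hσR' : σ ≤ R := hσR.trans hR3
  obtain ⟨M, hM1, hM2⟩ : ∃ M : ℕ, W + R ≤ σ * M ∧ σ * M ≤ W + R + σ := by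
    refine ⟨⌈(W + R) / σ⌉₊, ?_, ?_⟩
    · have := Nat.le_ceil ((W + R) / σ)
      rw [div_le_iff₀ hσ0] at this
      linarith
    · have := Nat.ceil_lt_add_one (a := (W + R) / σ) (by positivity)
      have h2 := mul_lt_mul_of_pos_left this hσ0
      have h3 : σ * ((W + R) / σ + 1) = W + R + σ := by
        field_simp
      linarith
  set I := (Finset.range (N + 1)).filter fun i : ℕ =>
    a - 2 * R ≤ σ * i ∧ σ * i ≤ b + 2 * R with hI
  have hIc : (I.card : ℝ) * σ ≤ (b - a + 4 * R) + σ := by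
    have := grid_card N σ hσ0 (a - 2 * R) (b + 2 * R) (by linarith)
    rw [← hI] at this
    linarith
  set J : Finset ℤ := Finset.Icc (-(M : ℤ)) M with hJ
  have hJc : (J.card : ℝ) = 2 * M + 1 := by
    rw [hJ, Int.card_Icc]
    have e1 : ((M : ℤ) + 1 - -(M : ℤ)).toNat = 2 * M + 1 := by omega
    rw [e1]
    push_cast
    ring
  set Q : ℝ := Real.pi / 2 * R ^ 2 - C2 * (R * (ρ + σ)) with hQ
  -- lower bound for each zero
  have h1 : ∀ z ∈ S, Q / σ ^ 2 ≤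
      ∑ i ∈ I, ∑ j ∈ J, kr R ρ (Real.sqrt ((x z - σ * i) ^ 2 + (y z - σ * j) ^ 2)) := by
    intro z hz
    obtain ⟨h2, h3, h4, h5, h6⟩ := hS z hz
    refine (hK (x z) (y z) M h2 h3 (by linarith)).trans (le_of_eq ?_)
    symm
    refine Finset.sum_subset (Finset.filter_subset _ _) ?_
    intro i hi hi'
    refine Finset.sum_eq_zero fun j _ => ?_
    refine kr_zero hR hρ ?_
    refine le_trans ?_ (Real.abs_le_sqrt (x := x z - σ * i) (by nlinarith [sq_nonneg (y z - σ * j)]))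
    by_contra hcon
    rw [not_le, abs_lt] at hcon
    refine hi' (Finset.mem_filter.2 ⟨hi, ?_, ?_⟩)
    · linarith [hcon.2]
    · linarith [hcon.1]
  have h2 : (∑ z ∈ S, m z) * (Q / σ ^ 2) ≤ I.card * (J.card * ((R ^ 2 / 8 + C1 * ρ) * A)) := by
    calc (∑ z ∈ S, m z) * (Q / σ ^ 2) = ∑ z ∈ S, m z * (Q / σ ^ 2) := by rw [Finset.sum_mul]
      _ ≤ ∑ z ∈ S, m z *
            ∑ i ∈ I, ∑ j ∈ J, kr R ρ (Real.sqrt ((x z - σ * i) ^ 2 + (y z - σ * j) ^ 2)) :=
          Finset.sum_le_sum fun z hz => mul_le_mul_of_nonneg_left (h1 z hz) (hm z)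
      _ = ∑ z ∈ S, ∑ i ∈ I, ∑ j ∈ J,
            m z * kr R ρ (Real.sqrt ((x z - σ * i) ^ 2 + (y z - σ * j) ^ 2)) := by
          refine Finset.sum_congr rfl fun z _ => ?_
          rw [Finset.mul_sum]
          refine Finset.sum_congr rfl fun i _ => ?_
          rw [Finset.mul_sum]
      _ = ∑ i ∈ I, ∑ j ∈ J, ∑ z ∈ S,
            m z * kr R ρ (Real.sqrt ((x z - σ * i) ^ 2 + (y z - σ * j) ^ 2)) := by
          rw [Finset.sum_comm]
          refine Finset.sum_congr rfl fun i _ => ?_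
          rw [Finset.sum_comm]
      _ ≤ ∑ _i ∈ I, ∑ _j ∈ J, (R ^ 2 / 8 + C1 * ρ) * A := by
          refine Finset.sum_le_sum fun i hi => Finset.sum_le_sum fun j hj => ?_
          have hi' : i < N + 1 := Finset.mem_range.1 (Finset.mem_filter.1 hi).1
          have hiN : (i : ℝ) ≤ N := by exact_mod_cast Nat.lt_succ_iff.1 hi'
          rw [hJ, Finset.mem_Icc] at hj
          have k1 : -(M : ℝ) ≤ (j : ℝ) := by exact_mod_cast hj.1
          have k2 : (j : ℝ) ≤ (M : ℝ) := by exact_mod_cast hj.2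
          have h3 := hP (i : ℤ) j (by positivity)
            (by
              push_cast
              calc σ * (i : ℝ) ≤ σ * N := mul_le_mul_of_nonneg_left hiN hσ0.le
                _ = 1 := hσN)
            (by
              rw [abs_mul, abs_of_pos hσ0]
              have k3 : |(j : ℝ)| ≤ M := abs_le.2 ⟨k1, k2⟩
              have k4 := mul_le_mul_of_nonneg_left k3 hσ0.le
              linarith)
          push_cast at h3
          exact h3
      _ = I.card * (J.card * ((R ^ 2 / 8 + C1 * ρ) * A)) := by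
          rw [Finset.sum_const, Finset.sum_const, nsmul_eq_mul, nsmul_eq_mul]
  set Z := ∑ z ∈ S, m z with hZ
  have hZ0 : 0 ≤ Z := Finset.sum_nonneg fun z _ => hm z
  have hB0 : 0 ≤ (R ^ 2 / 8 + C1 * ρ) * A := by positivity
  have h3 : Z * Q ≤ (b - a + 5 * R) * (2 * W + 5 * R) * ((R ^ 2 / 8 + C1 * ρ) * A) := by
    have h4 : Z * Q = Z * (Q / σ ^ 2) * σ ^ 2 := by field_simp
    have h5 : (J.card : ℝ) * σ ≤ 2 * W + 5 * R := by
      rw [hJc]
      have : σ * 3 ≤ R * 3 := by linarith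
      nlinarith
    rw [h4]
    calc Z * (Q / σ ^ 2) * σ ^ 2 ≤
          (I.card * (J.card * ((R ^ 2 / 8 + C1 * ρ) * A))) * σ ^ 2 :=
          mul_le_mul_of_nonneg_right h2 (by positivity)
      _ = (I.card * σ) * (J.card * σ) * ((R ^ 2 / 8 + C1 * ρ) * A) := by ring
      _ ≤ (b - a + 5 * R) * (2 * W + 5 * R) * ((R ^ 2 / 8 + C1 * ρ) * A) := by
          refine mul_le_mul_of_nonneg_right ?_ hB0
          refine mul_le_mul (by linarith) h5 (by positivity) (by linarith)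
  have h4 : R ^ 2 * (Real.pi / 2 - 2 * C2 * R ^ 2) ≤ Q := by
    rw [hQ]
    have h5 : R * (ρ + σ) ≤ R * (2 * R ^ 3) := mul_le_mul_of_nonneg_left (by linarith) hR.le
    have h6 := mul_le_mul_of_nonneg_left h5 hC2.le
    nlinarith
  have h5 : (b - a + 5 * R) * (2 * W + 5 * R) * ((R ^ 2 / 8 + C1 * ρ) * A) ≤
      R ^ 2 * ((b - a + 5 * R) * (2 * W + 5 * R) * (1 / 8 + C1 * R) * A) := by
    have h7 : R ^ 2 / 8 + C1 * ρ ≤ R ^ 2 * (1 / 8 + C1 * R) := by nlinarith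
    have h8 : 0 ≤ (b - a + 5 * R) * (2 * W + 5 * R) :=
      mul_nonneg (by linarith) (by positivity)
    calc (b - a + 5 * R) * (2 * W + 5 * R) * ((R ^ 2 / 8 + C1 * ρ) * A) ≤
          (b - a + 5 * R) * (2 * W + 5 * R) * ((R ^ 2 * (1 / 8 + C1 * R)) * A) :=
          mul_le_mul_of_nonneg_left (mul_le_mul_of_nonneg_right h7 hA) h8
      _ = R ^ 2 * ((b - a + 5 * R) * (2 * W + 5 * R) * (1 / 8 + C1 * R) * A) := by ring
  have h6 : R ^ 2 * (Z * (Real.pi / 2 - 2 * C2 * R ^ 2)) ≤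
      R ^ 2 * ((b - a + 5 * R) * (2 * W + 5 * R) * (1 / 8 + C1 * R) * A) := by
    calc R ^ 2 * (Z * (Real.pi / 2 - 2 * C2 * R ^ 2)) =
          Z * (R ^ 2 * (Real.pi / 2 - 2 * C2 * R ^ 2)) := by ring
      _ ≤ Z * Q := mul_le_mul_of_nonneg_left h4 hZ0
      _ ≤ _ := h3.trans h5
  exact le_of_mul_le_mul_left h6 (by positivity)

/-- The total count. -/
theorem count (m : ℂ → ℝ) (hm : ∀ z, 0 ≤ m z) (x y : ℂ → ℝ) (S : Finset ℂ)
    (R ρ σ C1 C2 W A a b ε : ℝ) (N : ℕ) (hσ0 : 0 < σ) (hσN : σ * N = 1) (hσR : σ ≤ R ^ 3)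
    (hR : 0 < R) (hR1 : R ≤ 1 / 8) (hρ : 0 < ρ) (hρR : ρ ≤ R ^ 3) (hC1 : 0 < C1) (hC2 : 0 < C2)
    (hε1 : ε ≤ 1) (hRC : R * (8 * C2) ≤ 1)
    (hRε : R * (64 * (W + 1) * (2 + C1) + 4 * (5 / 8 + (2 * W + 5) * C1 +
      5 * (2 * W + 5) * (1 / 8 + C1)) + 8 * W * C2) ≤ ε * W)
    (ha : 0 ≤ a) (hab : a ≤ b) (hb : b ≤ 1) (hW : 0 < W) (hA : 0 ≤ A)
    (hS : ∀ z ∈ S, a - R ≤ x z ∧ x z ≤ b + R ∧ |y z| ≤ W)
    (hP : ∀ i j : ℤ, 0 ≤ σ * i → σ * i ≤ 1 → |σ * j| ≤ W + 1 → ∀ S' ⊆ S,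
      ∑ z ∈ S', m z * kr R ρ (Real.sqrt ((x z - σ * i) ^ 2 + (y z - σ * j) ^ 2)) ≤
        (R ^ 2 / 8 + C1 * ρ) * A)
    (hE : ∀ l : ℤ, |R * l| ≤ W + 1 → ∀ S' ⊆ S,
      ∑ z ∈ S', m z * kr (4 * R) ρ (Real.sqrt ((x z - 0) ^ 2 + (y z - R * l) ^ 2)) ≤
        ((4 * R) ^ 2 / 8 + C1 * ρ) * A)
    (hF : ∀ l : ℤ, |R * l| ≤ W + 1 → ∀ S' ⊆ S,
      ∑ z ∈ S', m z * kr (4 * R) ρ (Real.sqrt ((x z - 1) ^ 2 + (y z - R * l) ^ 2)) ≤
        ((4 * R) ^ 2 / 8 + C1 * ρ) * A)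
    (hK : ∀ (u v : ℝ) (M : ℕ), R ≤ u → u + R ≤ 1 → |v| + R ≤ σ * M →
      (Real.pi / 2 * R ^ 2 - C2 * (R * (ρ + σ))) / σ ^ 2 ≤
        ∑ i ∈ Finset.range (N + 1), ∑ j ∈ Finset.Icc (-(M : ℤ)) M,
          kr R ρ (Real.sqrt ((u - σ * i) ^ 2 + (v - σ * j) ^ 2))) :
    ∑ z ∈ S, m z ≤ ((b - a) / 2 + ε) * (W * A / Real.pi) := by
  classical
  set Sa := S.filter fun z => |x z - 0| ≤ R with hSa
  set Sb := S.filter fun z => |x z - 1| ≤ R with hSb
  set Sc := S.filter fun z => R ≤ x z ∧ x z + R ≤ 1 with hSc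
  have h1 : ∑ z ∈ Sa, m z ≤ 4 * (W + 1) * (2 + C1) * R * A :=
    count_end m hm x y Sa R ρ C1 W A 0 hR hR1 hρ hρR hC1 hW hA
      (fun z hz => ⟨(Finset.mem_filter.1 hz).2, (hS z (Finset.mem_filter.1 hz).1).2.2⟩)
      (fun l hl => hE l hl Sa (Finset.filter_subset _ _))
  have h2 : ∑ z ∈ Sb, m z ≤ 4 * (W + 1) * (2 + C1) * R * A :=
    count_end m hm x y Sb R ρ C1 W A 1 hR hR1 hρ hρR hC1 hW hA
      (fun z hz => ⟨(Finset.mem_filter.1 hz).2, (hS z (Finset.mem_filter.1 hz).1).2.2⟩)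
      (fun l hl => hF l hl Sb (Finset.filter_subset _ _))
  have h3 := count_mid m hm x y Sc R ρ σ C1 C2 W A a b N hσ0 hσN hσR hR hR1 hρ hρR hC1 hC2 hab hW hA
    (fun z hz => by
      obtain ⟨h4, h5, h6⟩ := Finset.mem_filter.1 hz
      exact ⟨h5, h6, hS z h4⟩)
    (fun i j hi hi' hj => hP i j hi hi' hj Sc (Finset.filter_subset _ _)) hK
  have h4 : ∑ z ∈ S, m z ≤ ∑ z ∈ Sa, m z + ∑ z ∈ Sb, m z + ∑ z ∈ Sc, m z := by
    rw [hSa, hSb, hSc, Finset.sum_filter, Finset.sum_filter, Finset.sum_filter,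
      ← Finset.sum_add_distrib, ← Finset.sum_add_distrib]
    refine Finset.sum_le_sum fun z hz => ?_
    obtain ⟨h5, h6, -⟩ := hS z hz
    have hmz := hm z
    by_cases c1 : |x z - 0| ≤ R
    · rw [if_pos c1]
      have e1 : 0 ≤ (if |x z - 1| ≤ R then m z else 0) := by split_ifs <;> linarith
      have e2 : 0 ≤ (if R ≤ x z ∧ x z + R ≤ 1 then m z else 0) := by split_ifs <;> linarith
      linarith
    · by_cases c2 : |x z - 1| ≤ R
      · rw [if_neg c1, if_pos c2]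
        have e2 : 0 ≤ (if R ≤ x z ∧ x z + R ≤ 1 then m z else 0) := by split_ifs <;> linarith
        linarith
      · have c3 : R ≤ x z ∧ x z + R ≤ 1 := by
          rw [not_le, lt_abs] at c1 c2
          constructor
          · rcases c1 with c | c <;> linarith
          · rcases c2 with c | c <;> linarith
        rw [if_neg c1, if_neg c2, if_pos c3]
        linarith
  -- numbers
  have hpi := Real.pi_pos
  have hpi3 := Real.pi_gt_three
  have hpi4 := Real.pi_le_four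
  set Z := ∑ z ∈ Sc, m z with hZ
  have hZ0 : 0 ≤ Z := Finset.sum_nonneg fun z _ => hm z
  have hC2R : 2 * C2 * R ^ 2 ≤ 1 / 4 := by
    have e1 : R ^ 2 * C2 ≤ R * C2 := by
      refine mul_le_mul_of_nonneg_right ?_ hC2.le
      nlinarith
    linarith
  have hQ : 0 < Real.pi / 2 - 2 * C2 * R ^ 2 := by linarith
  set K1 : ℝ := 5 / 8 + (2 * W + 5) * C1 + 5 * (2 * W + 5) * (1 / 8 + C1) with hK1
  have hK10 : 0 < K1 := by positivity
  have hR64 : R * (64 * (W + 1) * (2 + C1)) ≤ ε * W := by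
    refine le_trans (mul_le_mul_of_nonneg_left ?_ hR.le) hRε
    have : 0 < 8 * W * C2 := by positivity
    linarith
  have hRK : R * (4 * K1 + 8 * W * C2) ≤ ε * W := by
    refine le_trans (mul_le_mul_of_nonneg_left ?_ hR.le) hRε
    have : 0 < 64 * (W + 1) * (2 + C1) := by positivity
    linarith
  have h5 : Z ≤ ((b - a) / 2 + ε / 2) * (W * A / Real.pi) := by
    have h6 : (b - a + 5 * R) * (2 * W + 5 * R) * (1 / 8 + C1 * R) * A ≤
        ((b - a) / 2 + ε / 2) * (W * A / Real.pi) * (Real.pi / 2 - 2 * C2 * R ^ 2) := by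
      have h7 : (b - a + 5 * R) * (2 * W + 5 * R) * (1 / 8 + C1 * R) ≤
          ((b - a) / 2 + ε / 2) * (W / Real.pi) * (Real.pi / 2 - 2 * C2 * R ^ 2) := by
        have e1 : ((b - a) / 2 + ε / 2) * (W / Real.pi) * (Real.pi / 2 - 2 * C2 * R ^ 2) =
            (b - a + ε) * W / 4 - (b - a + ε) * (W * (C2 * R ^ 2)) / Real.pi := by
          field_simp
          ring
        rw [e1]
        have e2 : (b - a + ε) * (W * (C2 * R ^ 2)) / Real.pi ≤ W * C2 * R := by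
          rw [div_le_iff₀ hpi]
          have e3 : R ^ 2 ≤ R := by nlinarith
          have e4 : (b - a + ε) * (W * (C2 * R ^ 2)) ≤ 2 * (W * (C2 * R)) := by
            refine mul_le_mul (by linarith) ?_ (by positivity) (by norm_num)
            exact mul_le_mul_of_nonneg_left (mul_le_mul_of_nonneg_left e3 hC2.le) hW.le
          have e5 : 0 < W * C2 * R := by positivity
          nlinarith
        have e3 : (b - a + 5 * R) * (2 * W + 5 * R) * (1 / 8 + C1 * R) ≤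
            (b - a) * W / 4 + R * K1 := by
          have f1 : (b - a + 5 * R) * (2 * W + 5 * R) * (1 / 8 + C1 * R) =
              (b - a) * W / 4 + R * ((b - a) * (5 / 8) + (b - a) * ((2 * W + 5 * R) * C1) +
                5 * ((2 * W + 5 * R) * (1 / 8 + C1 * R))) := by ring
          rw [f1]
          have f2 : (b - a) * (5 / 8) ≤ 5 / 8 := by linarith
          have f3 : (2 * W + 5 * R) * C1 ≤ (2 * W + 5) * C1 :=
            mul_le_mul_of_nonneg_right (by linarith) hC1.le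
          have f4 : (b - a) * ((2 * W + 5 * R) * C1) ≤ (2 * W + 5) * C1 := by
            have g1 : 0 ≤ (2 * W + 5 * R) * C1 := by positivity
            have g2 : (b - a) * ((2 * W + 5 * R) * C1) ≤ 1 * ((2 * W + 5 * R) * C1) :=
              mul_le_mul_of_nonneg_right (by linarith) g1
            linarith
          have f5 : (2 * W + 5 * R) * (1 / 8 + C1 * R) ≤ (2 * W + 5) * (1 / 8 + C1) := by
            refine mul_le_mul (by linarith) ?_ (by positivity) (by positivity)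
            have : C1 * R ≤ C1 * 1 := mul_le_mul_of_nonneg_left (by linarith) hC1.le
            linarith
          have f6 : (b - a) * (5 / 8) + (b - a) * ((2 * W + 5 * R) * C1) +
                5 * ((2 * W + 5 * R) * (1 / 8 + C1 * R)) ≤ K1 := by
            rw [hK1]
            linarith
          have f7 := mul_le_mul_of_nonneg_left f6 hR.le
          linarith
        have e4 : R * K1 + W * C2 * R ≤ ε * W / 4 := by
          have g1 : R * (4 * K1 + 8 * W * C2) = 4 * (R * K1) + 8 * (W * C2 * R) := by ring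
          have g2 : 0 < W * C2 * R := by positivity
          linarith
        have e5 : (b - a + ε) * W / 4 = (b - a) * W / 4 + ε * W / 4 := by ring
        linarith
      calc (b - a + 5 * R) * (2 * W + 5 * R) * (1 / 8 + C1 * R) * A ≤
            ((b - a) / 2 + ε / 2) * (W / Real.pi) * (Real.pi / 2 - 2 * C2 * R ^ 2) * A :=
            mul_le_mul_of_nonneg_right h7 hA
        _ = _ := by ring
    exact le_of_mul_le_mul_right (h3.trans h6) hQ
  have h6 : 2 * (4 * (W + 1) * (2 + C1) * R * A) ≤ ε / 2 * (W * A / Real.pi) := by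
    have e1 : 2 * (4 * (W + 1) * (2 + C1) * R) ≤ ε / 2 * (W / Real.pi) := by
      rw [← mul_div_assoc, le_div_iff₀ hpi]
      have e2 : 0 < (W + 1) * (2 + C1) * R := by positivity
      nlinarith
    calc 2 * (4 * (W + 1) * (2 + C1) * R * A) = 2 * (4 * (W + 1) * (2 + C1) * R) * A := by ring
      _ ≤ ε / 2 * (W / Real.pi) * A := mul_le_mul_of_nonneg_right e1 hA
      _ = _ := by ring
  have h7 : ((b - a) / 2 + ε) * (W * A / Real.pi) =
      ((b - a) / 2 + ε / 2) * (W * A / Real.pi) + ε / 2 * (W * A / Real.pi) := by ring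
  linarith

end Pool.Agent.H734.HE
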