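import Pool.Agent.H466.HE.SC
import Pool.Agent.H734.HE.LUPc

/-!
# LUP: sharp upper bound for the number of the zeros in boxes
-/

set_option autoImplicit false

namespace Pool.Agent.H734.HE

open Complex MeasureTheory Set Filter Topology
open scoped ComplexConjugate
open Pool.Agent.H466.HF Pool.Agent.H466.LD Pool.Agent.H466.HP Pool.Agent.H466.HN Pool.Agent.H466.HD
open Pool.Agent.H466.HE

theorem kk_eq (R ρ s : ℝ) : kk R ρ s = kr R ρ s := rfl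

/-- KS2 for `σ ≤ ρ` -/
def S_KS2w : Prop := ∃ C : ℝ, 0 < C ∧ ∀ (ρ R σ x y : ℝ) (N M : ℕ), 0 < ρ → ρ ≤ R → R ≤ 1 → 0 < σ →
  σ ≤ ρ → R ≤ x → x + R ≤ σ * N → |y| + R ≤ σ * M →
  (Real.pi / 2 * R ^ 2 - C * (R * (ρ + σ))) / σ ^ 2 ≤
    ∑ i ∈ Finset.range (N + 1), ∑ j ∈ Finset.Icc (-(M : ℤ)) M,
      kk R ρ (Real.sqrt ((x - σ * i) ^ 2 + (y - σ * j) ^ 2))

theorem S_KS2.weak (h : S_KS2) : S_KS2w := by
  obtain ⟨C, hC, h⟩ := h
  exact ⟨C, hC, fun ρ R σ x y N M h1 h2 h3 h4 h5 => h ρ R σ x y N M h1 h2 h3 h4 (h5.trans h2)⟩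

/-- the distance in scaled coordinates -/
theorem dist_scale (t D p q : ℝ) (hD : 0 < D) (z : ℂ) :
    ‖z - ((p * D : ℝ) + ((t + q * D : ℝ) : ℂ) * I)‖ / D =
      Real.sqrt ((z.re / D - p) ^ 2 + ((z.im - t) / D - q) ^ 2) := by
  rw [Complex.norm_def, Complex.normSq_apply]
  have e : (z.re / D - p) ^ 2 + ((z.im - t) / D - q) ^ 2 =
      ((z - ((p * D : ℝ) + ((t + q * D : ℝ) : ℂ) * I)).re *
        (z - ((p * D : ℝ) + ((t + q * D : ℝ) : ℂ) * I)).re +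
      (z - ((p * D : ℝ) + ((t + q * D : ℝ) : ℂ) * I)).im *
        (z - ((p * D : ℝ) + ((t + q * D : ℝ) : ℂ) * I)).im) / D ^ 2 := by
    have e1 : (z - ((p * D : ℝ) + ((t + q * D : ℝ) : ℂ) * I)).re = z.re - p * D := by simp
    have e2 : (z - ((p * D : ℝ) + ((t + q * D : ℝ) : ℂ) * I)).im = z.im - (t + q * D) := by
      simp only [Complex.sub_im, Complex.add_im, Complex.mul_im, Complex.ofReal_re,
        Complex.ofReal_im, Complex.I_re, Complex.I_im]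
      ring
    rw [e1, e2]
    field_simp
    ring
  rw [e, Real.sqrt_div' _ (by positivity), Real.sqrt_sq hD.le]

theorem lup_weak (h1 : S_JX) (h2 : S_KS2w) : S_LUP := by
  intro ε W hε hε1 hW
  obtain ⟨C1, hC1, hJX⟩ := h1
  obtain ⟨C2, hC2, hKS⟩ := h2
  set B : ℝ := 64 * (W + 1) * (2 + C1) + 4 * (5 / 8 + (2 * W + 5) * C1 +
      5 * (2 * W + 5) * (1 / 8 + C1)) + 8 * W * C2 with hB
  have hB0 : 0 < B := by positivity
  obtain ⟨n, hn⟩ := exists_nat_ge (8 + 8 * C2 + B / (ε * W))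
  have hBW : 0 < B / (ε * W) := by positivity
  have hn8 : (8 : ℝ) ≤ n := by linarith
  have hn0 : (0 : ℝ) < n := by linarith
  obtain ⟨R, hRn⟩ : ∃ R : ℝ, R = 1 / n := ⟨_, rfl⟩
  have hR0 : 0 < R := by rw [hRn]; positivity
  have hRn1 : R * n = 1 := by rw [hRn]; field_simp
  have hR1 : R ≤ 1 / 8 := by
    rw [hRn]
    exact one_div_le_one_div_of_le (by norm_num) hn8
  have hRC : R * (8 * C2) ≤ 1 := by
    rw [← hRn1]
    exact mul_le_mul_of_nonneg_left (by linarith) hR0.le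
  have hRε : R * B ≤ ε * W := by
    have e1 : B / (ε * W) ≤ n := by linarith
    rw [div_le_iff₀ (by positivity)] at e1
    calc R * B ≤ R * (n * (ε * W)) := mul_le_mul_of_nonneg_left e1 hR0.le
      _ = (R * n) * (ε * W) := by ring
      _ = ε * W := by rw [hRn1, one_mul]
  obtain ⟨ρ, hρdef⟩ : ∃ ρ : ℝ, ρ = R ^ 3 := ⟨_, rfl⟩
  have hρ0 : 0 < ρ := by rw [hρdef]; positivity
  have hρR : ρ ≤ R := by
    rw [hρdef]
    calc R ^ 3 ≤ R ^ 1 := pow_le_pow_of_le_one hR0.le (by linarith) (by norm_num)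
      _ = R := pow_one R
  have hρN : ρ * (n ^ 3 : ℕ) = 1 := by
    rw [hρdef]
    push_cast
    rw [← mul_pow, hRn1, one_pow]
  obtain ⟨κ1, δ1, hκ1, hδ1, hJ1⟩ := hJX ρ R hρ0 hρR (by linarith)
  obtain ⟨κ2, δ2, hκ2, hδ2, hJ2⟩ := hJX ρ (4 * R) hρ0 (by linarith) (by linarith)
  refine ⟨R, ρ, ρ, min κ1 κ2, min (min δ1 δ2) (1 / (W + 1)), hR0, hρ0, by linarith, hρ0, by linarith,
    lt_min hκ1 hκ2, lt_min (lt_min hδ1 hδ2) (by positivity), ?_⟩
  intro κ hκ hκ0 A1 hA1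
  obtain ⟨a1, T1, ha1, hT1, hJ1'⟩ := hJ1 κ hκ (hκ0.trans (min_le_left _ _)) A1 hA1
  obtain ⟨a2, T2, ha2, hT2, hJ2'⟩ := hJ2 κ hκ (hκ0.trans (min_le_right _ _)) A1 hA1
  refine ⟨max a1 a2, max T1 T2, ha1.trans (le_max_left _ _), hT1.trans (le_max_left _ _), ?_⟩
  intro T t μ hT ht1 ht2 hμ hA hδ hG a b ha hab hb S hS
  have hT10 : 10 ≤ T := (hT1.trans (le_max_left _ _)).trans hT
  have hL : 0 < Real.log T := Real.log_pos (by linarith)
  obtain ⟨D, hDdef⟩ : ∃ D : ℝ, D = μ * Real.log T := ⟨_, rfl⟩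
  have hD : 0 < D := by rw [hDdef]; positivity
  have hδ' : D * (W + 1) ≤ 1 := by
    have e1 : D ≤ 1 / (W + 1) := by
      rw [hDdef]
      exact hδ.trans (min_le_right _ _)
    rwa [le_div_iff₀ (by positivity)] at e1
  -- the ordinates of the grid
  have hord : ∀ q : ℝ, |q| ≤ W + 1 → T ≤ t + q * D ∧ t + q * D ≤ 2 * T := by
    intro q hq
    have e1 : |q * D| ≤ 1 := by
      rw [abs_mul, abs_of_pos hD]
      calc |q| * D ≤ (W + 1) * D := mul_le_mul_of_nonneg_right hq hD.le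
        _ = D * (W + 1) := by ring
        _ ≤ 1 := hδ'
    rw [abs_le] at e1
    constructor
    · linarith
    · linarith
  set m : ℂ → ℝ := fun z => (analyticOrderNatAt (LL gk (-μ)) z : ℝ) with hm
  have hm0 : ∀ z, 0 ≤ m z := fun z => Nat.cast_nonneg _
  have key1 : ∀ i j : ℤ, 0 ≤ ρ * i → ρ * i ≤ 1 → |ρ * j| ≤ W + 1 → ∀ S' ⊆ S,
      ∑ z ∈ S', m z * kr R ρ (Real.sqrt ((z.re / D - ρ * i) ^ 2 + ((z.im - t) / D - ρ * j) ^ 2)) ≤
        (R ^ 2 / 8 + C1 * ρ) * (μ * Real.log T ^ 2) := by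
    intro i j hi hi' hj S' hS'
    obtain ⟨hRg, z0, hz0, hz0'⟩ := hG i j hi hi' hj
    rw [← hDdef] at hRg hz0 hz0'
    obtain ⟨g1, g2⟩ := hord (ρ * j) hj
    have h3 := hJ1' T (t + ρ * j * D) μ (ρ * i) ((le_max_left _ _).trans hT) g1 g2 hRg hμ
      ((le_max_left _ _).trans hA) ((hδ.trans (min_le_left _ _)).trans (min_le_left _ _)) hi hi'
      (by rw [← hDdef]; exact ⟨z0, hz0, hz0'⟩) S' (fun z hz => (hS z (hS' hz)).1)
    rw [← hDdef] at h3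
    refine le_trans (le_of_eq ?_) h3
    refine Finset.sum_congr rfl fun z _ => ?_
    rw [dist_scale t D (ρ * i) (ρ * j) hD z, kk_eq]
  have key2 : ∀ i j : ℤ, 0 ≤ ρ * i → ρ * i ≤ 1 → |ρ * j| ≤ W + 1 → ∀ S' ⊆ S,
      ∑ z ∈ S', m z *
        kr (4 * R) ρ (Real.sqrt ((z.re / D - ρ * i) ^ 2 + ((z.im - t) / D - ρ * j) ^ 2)) ≤
        ((4 * R) ^ 2 / 8 + C1 * ρ) * (μ * Real.log T ^ 2) := by
    intro i j hi hi' hj S' hS'
    obtain ⟨hRg, z0, hz0, hz0'⟩ := hG i j hi hi' hj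
    rw [← hDdef] at hRg hz0 hz0'
    obtain ⟨g1, g2⟩ := hord (ρ * j) hj
    have h3 := hJ2' T (t + ρ * j * D) μ (ρ * i) ((le_max_right _ _).trans hT) g1 g2 hRg hμ
      ((le_max_right _ _).trans hA) ((hδ.trans (min_le_left _ _)).trans (min_le_right _ _)) hi hi'
      (by rw [← hDdef]; exact ⟨z0, hz0, hz0'⟩) S' (fun z hz => (hS z (hS' hz)).1)
    rw [← hDdef] at h3
    refine le_trans (le_of_eq ?_) h3
    refine Finset.sum_congr rfl fun z _ => ?_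
    rw [dist_scale t D (ρ * i) (ρ * j) hD z, kk_eq]
  have hRl : ∀ l : ℤ, ρ * (((n ^ 2 : ℕ) * l : ℤ) : ℝ) = R * l := by
    intro l
    rw [hρdef]
    push_cast
    calc R ^ 3 * ((n : ℝ) ^ 2 * l) = R * (R * n) ^ 2 * l := by ring
      _ = R * l := by rw [hRn1]; ring
  have hfin := count m hm0 (fun z => z.re / D) (fun z => (z.im - t) / D) S R ρ ρ C1 C2 W
    (μ * Real.log T ^ 2) a b ε (n ^ 3) hρ0 hρN hρdef.le hR0 hR1 hρ0 hρdef.le hC1 hC2 hε1 hRC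
    (by rw [hB] at hRε; exact hRε) ha hab hb hW (by positivity)
    (fun z hz => by
      obtain ⟨-, h3, h4, h5⟩ := hS z hz
      rw [← hDdef] at h3 h4 h5
      refine ⟨?_, ?_, ?_⟩
      · show a - R ≤ z.re / D
        rw [le_div_iff₀ hD]
        exact h4
      · show z.re / D ≤ b + R
        rw [div_le_iff₀ hD]
        exact h5
      · show |(z.im - t) / D| ≤ W
        rw [abs_div, abs_of_pos hD, div_le_iff₀ hD]
        exact h3)
    key1
    (fun l hl S' hS' => by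
      have h3 := key2 0 ((n ^ 2 : ℕ) * l) (by simp) (by simp) (by rw [hRl]; exact hl) S' hS'
      rw [hRl] at h3
      simp only [Int.cast_zero, mul_zero] at h3
      exact h3)
    (fun l hl S' hS' => by
      have e1 : ρ * (((n ^ 3 : ℕ) : ℤ) : ℝ) = 1 := by
        rw [Int.cast_natCast]
        exact hρN
      have h3 := key2 ((n ^ 3 : ℕ) : ℤ) ((n ^ 2 : ℕ) * l) (by rw [e1]; exact zero_le_one)
        (by rw [e1]) (by rw [hRl]; exact hl) S' hS'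
      rw [hRl, e1] at h3
      exact h3)
    (fun u v M hu hu' hv => hKS ρ R ρ u v (n ^ 3) M hρ0 hρR (by linarith) hρ0 le_rfl hu
      (by rw [hρN]; exact hu') hv)
  exact hfin

theorem lup (h1 : S_JX) (h2 : S_KS2) : S_LUP := lup_weak h1 (S_KS2.weak h2)

end Pool.Agent.H734.HE
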